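import Pool.Agent.KS6_73.OR.Seq

/-!
# MP_d4c9a2_an: orders of iterates and linear recursions, all dimensions

In every dimension `n ≥ 3` there is a dominant superattracting monomial map whose sequence of orders
`c(f^k)` satisfies no linear recursion, even with complex coefficients, while in dimensions `1` and
`2` the sequence of orders of every monomial map satisfies one with integer coefficients.
-/

set_option autoImplicit false

namespace Pool.Agent.Results.MP_d4c9a2_an.MonomialThreshold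

open Pool.Agent.KS6_73.OR

lemma eventually_sign_aux (F : ℕ → ℝ) (μ₁ μ₂ : ℝ) (h1 : 0 ≤ μ₁) (h2 : 0 ≤ μ₂)
    (h : ∀ j, F (j + 2) = (μ₁ + μ₂) * F (j + 1) - μ₁ * μ₂ * F j)
    (h0 : 0 ≤ F 1 - μ₂ * F 0) : ∃ J, (∀ j, J ≤ j → 0 ≤ F j) ∨ ∀ j, J ≤ j → F j ≤ 0 := by
  have hE : ∀ j, 0 ≤ F (j + 1) - μ₂ * F j := by
    intro j
    induction j with
    | zero => simpa using h0
    | succ j ih =>
      have : F (j + 1 + 1) - μ₂ * F (j + 1) = μ₁ * (F (j + 1) - μ₂ * F j) := by
        rw [h j]; ring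
      rw [this]
      exact mul_nonneg h1 ih
  by_cases hex : ∃ j, 0 ≤ F j
  · obtain ⟨J, hJ⟩ := hex
    refine ⟨J, Or.inl fun j hj => ?_⟩
    induction j, hj using Nat.le_induction with
    | base => exact hJ
    | succ j _ ih =>
      have := hE j
      have := mul_nonneg h2 ih
      linarith
  · push Not at hex
    exact ⟨0, Or.inr fun j _ => (hex j).le⟩

lemma eventually_sign (F : ℕ → ℝ) (μ₁ μ₂ : ℝ) (h1 : 0 ≤ μ₁) (h2 : 0 ≤ μ₂)
    (h : ∀ j, F (j + 2) = (μ₁ + μ₂) * F (j + 1) - μ₁ * μ₂ * F j) :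
    ∃ J, (∀ j, J ≤ j → 0 ≤ F j) ∨ ∀ j, J ≤ j → F j ≤ 0 := by
  rcases le_total 0 (F 1 - μ₂ * F 0) with h0 | h0
  · exact eventually_sign_aux F μ₁ μ₂ h1 h2 h h0
  · obtain ⟨J, hJ⟩ := eventually_sign_aux (fun j => -F j) μ₁ μ₂ h1 h2
      (fun j => by rw [h j]; ring) (by linarith)
    refine ⟨J, ?_⟩
    rcases hJ with hJ | hJ
    · exact Or.inr fun j hj => by have := hJ j hj; linarith
    · exact Or.inl fun j hj => by have := hJ j hj; linarith

/-- the minimum of the two rows of a `2 × 2` iteration with natural entries -/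
theorem min_recursive (a b c d : ℕ) (x y : ℕ → ℕ) (hx : ∀ k, x (k + 1) = a * x k + b * y k)
    (hy : ∀ k, y (k + 1) = c * x k + d * y k) : Recursive ℤ fun k => min (x k) (y k) := by
  set T : ℤ := a ^ 2 + d ^ 2 + 2 * b * c with hT
  set Δ : ℤ := a * d - b * c with hΔ
  have rx : ∀ k, (x (k + 4) : ℤ) = T * x (k + 2) - Δ ^ 2 * x k := by
    intro k
    have e1 := hx k
    have e2 := hy k
    have e3 := hx (k + 1)
    have e4 := hy (k + 1)
    have e5 := hx (k + 2)
    have e6 := hy (k + 2)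
    have e7 := hx (k + 3)
    simp only [add_assoc, Nat.reduceAdd] at *
    rw [e7, e6, e5, e4, e3, e2, e1]
    push_cast
    ring
  have ry : ∀ k, (y (k + 4) : ℤ) = T * y (k + 2) - Δ ^ 2 * y k := by
    intro k
    have e1 := hx k
    have e2 := hy k
    have e3 := hx (k + 1)
    have e4 := hy (k + 1)
    have e5 := hx (k + 2)
    have e6 := hy (k + 2)
    have e7 := hy (k + 3)
    simp only [add_assoc, Nat.reduceAdd] at *
    rw [e7, e6, e5, e4, e3, e2, e1]
    push_cast
    ring
  -- the two nonnegative real roots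
  have hTnn : (0 : ℝ) ≤ (T : ℝ) := by
    rw [hT]; push_cast; positivity
  have hdisc : (0 : ℝ) ≤ (T : ℝ) ^ 2 - 4 * (Δ : ℝ) ^ 2 := by
    have : (T : ℝ) ^ 2 - 4 * (Δ : ℝ) ^ 2 =
        ((a : ℝ) + d) ^ 2 * (((a : ℝ) - d) ^ 2 + 4 * b * c) := by
      rw [hT, hΔ]; push_cast; ring
    rw [this]
    positivity
  set s : ℝ := Real.sqrt ((T : ℝ) ^ 2 - 4 * (Δ : ℝ) ^ 2) with hs
  have hss : s * s = (T : ℝ) ^ 2 - 4 * (Δ : ℝ) ^ 2 := Real.mul_self_sqrt hdisc
  have hs0 : 0 ≤ s := Real.sqrt_nonneg _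
  have hsT : s ≤ T := by
    rw [hs]
    apply Real.sqrt_le_iff.2
    refine ⟨hTnn, ?_⟩
    nlinarith [sq_nonneg (Δ : ℝ)]
  have key : ∀ r : ℕ, ∃ J, (∀ j, J ≤ j → 0 ≤ ((x (2 * j + r) : ℝ) - y (2 * j + r))) ∨
      ∀ j, J ≤ j → ((x (2 * j + r) : ℝ) - y (2 * j + r)) ≤ 0 := by
    intro r
    refine eventually_sign (fun j => (x (2 * j + r) : ℝ) - y (2 * j + r)) ((T + s) / 2)
      ((T - s) / 2) (by linarith) (by linarith) fun j => ?_
    have e1 := congrArg (Int.cast : ℤ → ℝ) (rx (2 * j + r))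
    have e2 := congrArg (Int.cast : ℤ → ℝ) (ry (2 * j + r))
    push_cast at e1 e2
    have e3 : 2 * (j + 2) + r = 2 * j + r + 4 := by ring
    have e4 : 2 * (j + 1) + r = 2 * j + r + 2 := by ring
    simp only [e3, e4]
    have e5 : ((T : ℝ) + s) / 2 * (((T : ℝ) - s) / 2) = (Δ : ℝ) ^ 2 := by nlinarith
    rw [e5, e1, e2]
    ring
  obtain ⟨J0, h0⟩ := key 0
  obtain ⟨J1, h1⟩ := key 1
  refine ⟨4, ![-Δ ^ 2, 0, T, 0], 2 * J0 + 2 * J1 + 1, fun k hk => ?_⟩
  simp only [Fin.sum_univ_four]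
  have goal : ((min (x (k + 4)) (y (k + 4)) : ℕ) : ℤ) =
      T * ((min (x (k + 2)) (y (k + 2)) : ℕ) : ℤ) - Δ ^ 2 * ((min (x k) (y k) : ℕ) : ℤ) := by
    have claim : (∀ i, y (k + 2 * i) ≤ x (k + 2 * i)) ∨ ∀ i, x (k + 2 * i) ≤ y (k + 2 * i) := by
      obtain ⟨j, r, hr, rfl⟩ : ∃ j r, r < 2 ∧ k = 2 * j + r := ⟨k / 2, k % 2, by omega, by omega⟩
      have e : ∀ i, 2 * j + r + 2 * i = 2 * (j + i) + r := fun i => by ring
      simp only [e]
      interval_cases r
      · rcases h0 with h | h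
        · left
          intro i
          have := h (j + i) (by omega)
          exact_mod_cast (sub_nonneg.1 this)
        · right
          intro i
          have := h (j + i) (by omega)
          exact_mod_cast (sub_nonpos.1 this)
      · rcases h1 with h | h
        · left
          intro i
          have := h (j + i) (by omega)
          exact_mod_cast (sub_nonneg.1 this)
        · right
          intro i
          have := h (j + i) (by omega)
          exact_mod_cast (sub_nonpos.1 this)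
    rcases claim with h | h
    · have a0 : y k ≤ x k := h 0
      have a1 : y (k + 2) ≤ x (k + 2) := h 1
      have a2 : y (k + 4) ≤ x (k + 4) := h 2
      rw [min_eq_right a2, min_eq_right a1, min_eq_right a0]
      exact ry k
    · have a0 : x k ≤ y k := h 0
      have a1 : x (k + 2) ≤ y (k + 2) := h 1
      have a2 : x (k + 4) ≤ y (k + 4) := h 2
      rw [min_eq_left a2, min_eq_left a1, min_eq_left a0]
      exact rx k
  rw [goal]
  simp
  ring

lemma order_two (A : Matrix (Fin 2) (Fin 2) ℕ) (k : ℕ) :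
    order ((mono A)^[k]) = min (dg A k 0) (dg A k 1) := by
  rcases le_total (dg A k 0) (dg A k 1) with h | h
  · rw [min_eq_left h]
    exact order_eq A k 0 fun j => by fin_cases j <;> simp [h]
  · rw [min_eq_right h]
    exact order_eq A k 1 fun j => by fin_cases j <;> simp [h]

/-- **Main theorem.** (1) For every `n ≥ 3` there is a matrix `A` of natural numbers such that the
monomial map `f = f_A` of `ℂ^n` fixes `0`, has zero derivative at `0`, is dominant, and the sequence
`c(f^k)` satisfies no linear recursion with complex coefficients, even after discarding finitely many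
terms. (2) For `n = 1, 2` and every matrix `A` of natural numbers the sequence `c(f_A^k)` satisfies a
linear recursion with integer coefficients. -/
theorem result (n : ℕ) :
    (3 ≤ n → ∃ A : Matrix (Fin n) (Fin n) ℕ, mono A 0 = 0 ∧ fderiv ℂ (mono A) 0 = 0 ∧
      (∀ ε : ℝ, 0 < ε → ∃ z : Fin n → ℂ, ‖z‖ < ε ∧ (fderiv ℂ (mono A) z).det ≠ 0) ∧
      ¬ Recursive ℂ fun k => order ((mono A)^[k])) ∧
    (1 ≤ n → n ≤ 2 → ∀ A : Matrix (Fin n) (Fin n) ℕ,
      Recursive ℤ fun k => order ((mono A)^[k])) := by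
  refine ⟨fun h3 => ?_, fun h1 h2 A => ?_⟩
  · obtain ⟨m, rfl⟩ := Nat.exists_eq_add_of_le h3
    exact ⟨M m, exists_map m⟩
  · interval_cases n
    · refine ⟨1, fun _ => A 0 0, 0, fun k _ => ?_⟩
      have h4 : ∀ k, order ((mono A)^[k]) = dg A k 0 := fun k =>
        order_eq A k 0 fun j => by rw [Subsingleton.elim j 0]
      simp only [h4, Fin.sum_univ_one]
      simp [dg]
    · have h4 : (fun k => order ((mono A)^[k])) = fun k => min (dg A k 0) (dg A k 1) :=
        funext fun k => order_two A k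
      rw [h4]
      refine min_recursive (A 0 0) (A 0 1) (A 1 0) (A 1 1) _ _ (fun k => ?_) fun k => ?_
      · simp [dg, Fin.sum_univ_two]
      · simp [dg, Fin.sum_univ_two]

end Pool.Agent.Results.MP_d4c9a2_an.MonomialThreshold
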